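import Pool.Agent.Work.MP_43381c_ag.CI.ArrFinal

/-!
# Torus actions: general arrangement varieties of any complexity

For `d` and a DCC set `Γ` in `[0, 1]` there is a number `l` such that every log canonical pair
on a `d`-dimensional general arrangement variety at the torus fixed point, with coefficients in
`Γ`, has a prime divisor computing its minimal log discrepancy whose log discrepancy with respect
to `X` is at most `l`. The complexity `p` of the torus action and the number `c + p + 1` of
critical hyperplanes are arbitrary; complexity one is the case `p = 1`.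
-/

namespace Pool.Agent.Results.MP_43381c_ag.ArrangementVarieties

open Pool.Agent.Work.MP_43381c_ag

universe u

theorem result (d : ℕ) (Γ : Set ℝ) (hΓ : Γ ⊆ Set.Icc 0 1)
    (hdcc : ¬ ∃ u : ℕ → ℝ, StrictAnti u ∧ ∀ i, u i ∈ Γ) :
    ∃ l : ℝ, 0 < l ∧ ∀ (n p : ℕ) (k K : Type u) [Field k] [IsAlgClosed k] [CharZero k] [Field K]
      [Algebra k K] (P : CIPair k K n d), P.Arrangement p → P.CoefIn Γ → P.IsLC →
      (∃ E, P.Over E) →
      ∃ E : PrimeDivisor k K d, P.Over E ∧ P.a E = P.mld ∧ P.aX E ≤ (l : EReal) :=
  arr_main d Γ hΓ hdcc

end Pool.Agent.Results.MP_43381c_ag.ArrangementVarieties
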