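import Pool.Agent.Work.MP_43381c_ag.CI.FinalDim
import Pool.Agent.Work.MP_43381c_ag.CI.Div

/-!
# Newton nondegenerate complete intersections in toric germs

For `d`, `N` and a DCC set `Γ` in `[0, 1]` there is a number `l` such that every log canonical
pair on a `d`-dimensional complete intersection germ `X` in an affine toric variety, Newton
nondegenerate, with coefficients in `Γ`, has a prime divisor computing its minimal log discrepancy
whose log discrepancy with respect to `X` is at most `l`; here the dimension `n` of the toric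
variety is at most `N`, or the embedding is minimal (and then the codimension is arbitrary).
-/

namespace Pool.Agent.Results.MP_43381c_ag.CompleteIntersections

open Pool.Agent.Work.MP_43381c_ag

universe u

theorem result (d N : ℕ) (Γ : Set ℝ) (hΓ : Γ ⊆ Set.Icc 0 1)
    (hdcc : ¬ ∃ u : ℕ → ℝ, StrictAnti u ∧ ∀ i, u i ∈ Γ) :
    ∃ l : ℝ, 0 < l ∧ ∀ (n : ℕ) (k K : Type u) [Field k] [IsAlgClosed k] [CharZero k] [Field K]
      [Algebra k K] (P : CIPair k K n d), (n ≤ N ∨ P.Minimal) → P.CoefIn Γ → P.IsLC →
      (∃ E, P.Over E) →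
      ∃ E : PrimeDivisor k K d, P.Over E ∧ P.a E = P.mld ∧ P.aX E ≤ (l : EReal) :=
  ci_dim_of (fun _ _ _ _ _ _ _ _ _ P E hE => ci_low P E hE)
    (fun _ _ _ _ _ _ _ _ _ P hc w hw hp ht => exists_div P hc w hw hp ht) d N Γ hΓ hdcc

end Pool.Agent.Results.MP_43381c_ag.CompleteIntersections
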